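import Pool.Agent.PDN.Stmts

/-!
# PDN, row SGN: signs if all degrees are divisible by four
-/

set_option autoImplicit false

namespace Pool.Agent.PDN.H25

open Pool.Agent.PDN

variable {V : Type}

open Classical in
/-- the next neighbour -/
noncomputable def nxt (T : Tri V) (u v : V) : V := if h : T.Adj u v then h.choose else v

theorem nxt_spec {T : Tri V} {u v : V} (h : T.Adj u v) : T.f u v (nxt T u v) := by
  rw [nxt, dif_pos h]
  exact h.choose_spec

theorem nxt_inj {T : Tri V} {u v v' : V} (h : T.Adj u v) (h' : T.Adj u v')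
    (he : nxt T u v = nxt T u v') : v = v' := by
  have h1 := T.cyc (T.cyc (nxt_spec h))
  have h2 := T.cyc (T.cyc (nxt_spec h'))
  rw [← he] at h2
  exact T.uniq h1 h2

theorem adj_of_f {T : Tri V} {u v w : V} (h : T.f u v w) : T.Adj u w := by
  have h1 : T.Adj w u := ⟨v, T.cyc (T.cyc h)⟩
  exact T.adj_symm h1

theorem third : ∀ a b c i : ZMod 3, a ≠ i → b ≠ a → b ≠ i → c ≠ a → c ≠ b → c = i := by
  change ∀ a b c i : Fin 3, a ≠ i → b ≠ a → b ≠ i → c ≠ a → c ≠ b → c = i
  decide

theorem third' : ∀ a b c d : ZMod 3, a ≠ b → c ≠ a → c ≠ b → d ≠ a → d ≠ b → c = d := by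
  change ∀ a b c d : Fin 3, a ≠ b → c ≠ a → c ≠ b → d ≠ a → d ≠ b → c = d
  decide

open Classical in
theorem even_card [Fintype V] (T : Tri V) (x : V → ZMod 3) (hx : ∀ u v, T.Adj u v → x u ≠ x v)
    (u : V) (hu : 4 ∣ T.deg u) (i : ZMod 3) (hi : x u ≠ i) :
    Even (Finset.univ.filter fun v => T.Adj u v ∧ x v ≠ i).card := by
  have h1 : (Finset.univ.filter fun v => T.Adj u v ∧ x v ≠ i).card ≤
      (Finset.univ.filter fun v => T.Adj u v ∧ x v = i).card := by
    apply Finset.card_le_card_of_injOn (nxt T u)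
    · intro v hv
      rw [Finset.mem_coe, Finset.mem_filter] at hv
      rw [Finset.mem_coe, Finset.mem_filter]
      have hf := nxt_spec hv.2.1
      have h2 : T.Adj u (nxt T u v) := adj_of_f hf
      refine ⟨Finset.mem_univ _, h2, ?_⟩
      have h3 : T.Adj v (nxt T u v) := ⟨u, T.cyc hf⟩
      exact third (x u) (x v) _ i hi (hx _ _ hv.2.1).symm hv.2.2 (hx _ _ h2).symm
        (hx _ _ h3).symm
    · intro v hv v' hv' he
      rw [Finset.mem_coe, Finset.mem_filter] at hv hv'
      exact nxt_inj hv.2.1 hv'.2.1 he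
  have h2 : (Finset.univ.filter fun v => T.Adj u v ∧ x v = i).card ≤
      (Finset.univ.filter fun v => T.Adj u v ∧ x v ≠ i).card := by
    apply Finset.card_le_card_of_injOn (nxt T u)
    · intro v hv
      rw [Finset.mem_coe, Finset.mem_filter] at hv
      rw [Finset.mem_coe, Finset.mem_filter]
      have hf := nxt_spec hv.2.1
      have h2 : T.Adj u (nxt T u v) := adj_of_f hf
      refine ⟨Finset.mem_univ _, h2, ?_⟩
      have h3 : T.Adj v (nxt T u v) := ⟨u, T.cyc hf⟩
      intro h4
      exact hx _ _ h3 (hv.2.2.trans h4.symm)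
    · intro v hv v' hv' he
      rw [Finset.mem_coe, Finset.mem_filter] at hv hv'
      exact nxt_inj hv.2.1 hv'.2.1 he
  have h3 : T.deg u = (Finset.univ.filter fun v => T.Adj u v ∧ x v = i).card +
      (Finset.univ.filter fun v => T.Adj u v ∧ x v ≠ i).card := by
    rw [Tri.deg, Nat.card_eq_fintype_card, Fintype.card_subtype, ← Finset.filter_filter,
      ← Finset.filter_filter]
    exact (Finset.card_filter_add_card_filter_not (s := Finset.univ.filter fun v => T.Adj u v)
      (fun v => x v = i)).symm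
  obtain ⟨k, hk⟩ := hu
  exact ⟨k, by omega⟩

theorem two_ne : ∀ a b : ZMod 2, a - b = 1 → (a = 0 ∧ b ≠ 0) ∨ (a ≠ 0 ∧ b = 0) := by
  decide

theorem neg_self2 : ∀ a : ZMod 2, a = - a := by
  decide

theorem sgn (exa : ExaStmt) (col : ColStmt) : SgnStmt := by
  intro V _ T hconn htight hdeg
  classical
  obtain ⟨x, hx⟩ := col V T hconn htight (fun v => by
    obtain ⟨k, hk⟩ := hdeg v
    exact ⟨2 * k, by omega⟩)
  -- the face functions
  have hs : ∀ i : ZMod 3, ∃ s : V → V → ZMod 2, (∀ u v w, T.f u v w → s u v = s v w) ∧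
      ∀ u v, T.Adj u v → (if x u ≠ i ∧ x v ≠ i then (1 : ZMod 2) else 0) = s u v - s v u := by
    intro i
    apply (exa (ZMod 2) V T hconn htight).2
      (fun u v => if x u ≠ i ∧ x v ≠ i then (1 : ZMod 2) else 0)
    · intro u v _
      rw [← neg_self2]
      by_cases h : x u ≠ i ∧ x v ≠ i
      · rw [if_pos h, if_pos ⟨h.2, h.1⟩]
      · rw [if_neg h, if_neg (fun h' => h ⟨h'.2, h'.1⟩)]
    · intro u
      by_cases hu : x u = i
      · apply Finset.sum_eq_zero
        intro v _
        rw [if_neg (fun h : x u ≠ i ∧ x v ≠ i => h.1 hu), ite_self]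
      · have h1 : ∀ v, (if T.Adj u v then (if x u ≠ i ∧ x v ≠ i then (1 : ZMod 2) else 0) else 0) =
            if T.Adj u v ∧ x v ≠ i then 1 else 0 := by
          intro v
          by_cases h2 : T.Adj u v
          · by_cases h3 : x v ≠ i
            · rw [if_pos h2, if_pos ⟨hu, h3⟩, if_pos ⟨h2, h3⟩]
            · rw [if_pos h2, if_neg (fun h => h3 h.2), if_neg (fun h => h3 h.2)]
          · rw [if_neg h2, if_neg (fun h => h2 h.1)]
        rw [Finset.sum_congr rfl (fun v _ => h1 v), Finset.sum_boole]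
        obtain ⟨k, hk⟩ := even_card T x hx u (hdeg u) i hu
        rw [hk]
        push_cast
        exact CharTwo.add_self_eq_zero _
  choose s hs1 hs2 using hs
  -- constant around a vertex of the colour
  have hc : ∀ a v w, T.Adj a v → T.Adj a w → s (x a) a v = s (x a) a w := by
    intro a v w hv hw
    have hstep : ∀ y z, T.f a y z → s (x a) a y = s (x a) a z := by
      intro y z hf
      have h1 := hs1 (x a) _ _ _ hf
      have h2 := hs1 (x a) _ _ _ (T.cyc hf)
      have h3 := hs2 (x a) z a (T.adj_symm (adj_of_f hf))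
      rw [if_neg (fun h => h.2 rfl)] at h3
      rw [h1, h2]
      exact sub_eq_zero.1 h3.symm
    have hpath := T.link hv hw
    have key : ∀ z, Relation.ReflTransGen (T.f a) v z → s (x a) a v = s (x a) a z := by
      intro z hz
      induction hz with
      | refl => rfl
      | tail _ h2 ih => exact ih.trans (hstep _ _ h2)
    exact key w hpath
  let σ : V → ZMod 2 := fun a => if h : ∃ v, T.Adj a v then s (x a) a h.choose else 0
  have hσ : ∀ a v, T.Adj a v → σ a = s (x a) a v := by
    intro a v hv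
    have h : ∃ v, T.Adj a v := ⟨v, hv⟩
    have h1 : σ a = s (x a) a h.choose := dif_pos h
    rw [h1]
    exact hc a _ _ h.choose_spec hv
  refine ⟨fun a => if σ a = 0 then 1 else -1, ?_, ?_⟩
  · intro a
    by_cases h : σ a = 0
    · left
      exact if_pos h
    · right
      exact if_neg h
  · intro u v a b hua hvb
    have hau : T.Adj a u := ⟨v, T.cyc (T.cyc hua)⟩
    have hbv : T.Adj b v := ⟨u, T.cyc (T.cyc hvb)⟩
    have huv : T.Adj u v := ⟨a, hua⟩
    have hva : T.Adj v a := ⟨u, T.cyc hua⟩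
    have hub : T.Adj u b := ⟨v, T.cyc hvb⟩
    have hab : x a = x b := third' (x u) (x v) (x a) (x b) (hx _ _ huv) (hx _ _ hau)
      (hx _ _ hva).symm (hx _ _ hub).symm (hx _ _ hbv)
    have h1 := hs2 (x a) u v huv
    rw [if_pos ⟨(hx _ _ hau).symm, hx _ _ hva⟩] at h1
    -- the values
    have h2 : s (x a) u v = σ a := by
      rw [hσ a u hau, hs1 (x a) _ _ _ hua, hs1 (x a) _ _ _ (T.cyc hua)]
    have h3 : s (x a) v u = σ b := by
      rw [hσ b v hbv, hs1 (x a) _ _ _ hvb, hs1 (x a) _ _ _ (T.cyc hvb), hab]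
    rw [h2, h3] at h1
    rcases two_ne _ _ h1.symm with ⟨h4, h5⟩ | ⟨h4, h5⟩
    · change (if σ a = 0 then (1 : ℤ) else -1) = -(if σ b = 0 then (1 : ℤ) else -1)
      rw [if_pos h4, if_neg h5]
      norm_num
    · change (if σ a = 0 then (1 : ℤ) else -1) = -(if σ b = 0 then (1 : ℤ) else -1)
      rw [if_neg h4, if_pos h5]

end Pool.Agent.PDN.H25
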